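import Pool.Agent.H18.TD.Defs
import Pool.Agent.H72.PER.Targets

/-!
Targets of the board td1_modules (MP_58ae59_nt).
-/

set_option autoImplicit false

open Polynomial Module Filter Topology

namespace Pool.Agent.H18.TD

open Pool.Agent.H72.HR (pt dv box Grp Lie Std kap TT T_ZE T_CHV T_CLB T_PIG T_CAL)
open Pool.Agent.H72.PER (HRS)

/-! ### Part G: Gelfond's criterion -/

/-- size -/
def T_SZB : Prop :=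
  (∀ P Q : ℤ[X], P ≠ 0 → Q ≠ 0 → sz (P * Q) = sz P + sz Q) ∧
  (∀ Q : ℤ[X], Q ≠ 0 → (Q.natDegree : ℝ) ≤ sz Q) ∧
  (∀ (Q : ℤ[X]) (i : ℕ), Q ≠ 0 → |(Q.coeff i : ℝ)| ≤ Real.exp (sz Q)) ∧
  (∀ (Q : ℤ[X]) (B : ℝ), Q ≠ 0 → 1 ≤ B → (Q.natDegree : ℝ) ≤ B →
    (∀ i, |(Q.coeff i : ℝ)| ≤ Real.exp B) → sz Q ≤ 3 * B)

/-- a good irreducible factor -/
def T_GFA : Prop := ∀ (θ : ℂ) (R : ℤ[X]) (A B : ℝ), aeval θ R ≠ 0 → 1 ≤ B → 0 < A →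
  (R.natDegree : ℝ) ≤ B → (∀ i, |(R.coeff i : ℝ)| ≤ Real.exp B) →
  ‖aeval θ R‖ ≤ Real.exp (-A) →
  ∃ Q : ℤ[X], Irreducible Q ∧ Q ∣ R ∧ 1 ≤ Q.natDegree ∧ (Q.natDegree : ℝ) ≤ sz Q ∧
    sz Q ≤ 3 * B ∧ (∀ i, |(Q.coeff i : ℝ)| ≤ Real.exp (sz Q)) ∧
    ‖aeval θ Q‖ ≤ Real.exp (-(A / (3 * B) * sz Q))

/-- two coprime polynomials are not both small -/
def T_GRS : Prop := ∀ θ : ℂ, ∃ C : ℝ, 1 ≤ C ∧ ∀ (P Q : ℤ[X]) (p q ε : ℝ), Irreducible P →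
  Irreducible Q → ¬ Associated P Q → 1 ≤ P.natDegree → 1 ≤ Q.natDegree →
  (P.natDegree : ℝ) ≤ p → (Q.natDegree : ℝ) ≤ q →
  (∀ i, |(P.coeff i : ℝ)| ≤ Real.exp p) → (∀ i, |(Q.coeff i : ℝ)| ≤ Real.exp q) →
  ‖aeval θ P‖ ≤ ε → ‖aeval θ Q‖ ≤ ε → 1 ≤ ε * Real.exp (C * (p * q))

/-- the growth of the logarithm -/
def T_GRW : Prop := ∀ (C : ℝ) (j : ℕ), ∃ h0 : ℕ, 3 ≤ h0 ∧ ∀ h : ℕ, h0 ≤ h →
  C * (1 + Real.log h) ^ j ≤ h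

/-- Gelfond's criterion -/
def T_GEL : Prop := ∀ (θ : ℂ) (M : ℕ) (C : ℝ) (h0 : ℕ), 1 ≤ M → 1 ≤ C →
  ¬ ∀ h : ℕ, h0 ≤ h → ∃ R : ℤ[X], aeval θ R ≠ 0 ∧
    (R.natDegree : ℝ) ≤ C * (h : ℝ) ^ M * Real.log h ∧
    (∀ i, |(R.coeff i : ℝ)| ≤ Real.exp (C * (h : ℝ) ^ M * Real.log h)) ∧
    ‖aeval θ R‖ ≤ Real.exp (-((h : ℝ) ^ (2 * M + 1) / C))

/-! ### Part R: representations and norms -/

/-- calculus of representations -/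
def T_REP : Prop := ∀ (ι : Type) (x : ι → ℂ),
  (∀ n : ℤ, Rep x 0 |(n : ℝ)| (n : ℂ)) ∧
  (∀ δ δ' : ℕ, ∀ L L' : ℝ, ∀ z, δ ≤ δ' → L ≤ L' → Rep x δ L z → Rep x δ' L' z) ∧
  (∀ i, Rep x 1 1 (x i)) ∧
  (∀ δ : ℕ, ∀ L L' : ℝ, ∀ z z', Rep x δ L z → Rep x δ L' z' → Rep x δ (L + L') (z + z')) ∧
  (∀ δ δ' : ℕ, ∀ L L' : ℝ, ∀ z z', Rep x δ L z → Rep x δ' L' z' →
    Rep x (δ + δ') (L * L') (z * z')) ∧
  (∀ δ n : ℕ, ∀ L : ℝ, ∀ z, Rep x δ L z → Rep x (n * δ) (L ^ n) (z ^ n)) ∧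
  (∀ (Ω : Type) (s : Finset Ω) (δ : ℕ) (L : Ω → ℝ) (z : Ω → ℂ),
    (∀ w ∈ s, Rep x δ (L w) (z w)) → Rep x δ (∑ w ∈ s, L w) (∑ w ∈ s, z w)) ∧
  (∀ (Ω : Type) (s : Finset Ω) (δ : Ω → ℕ) (L : Ω → ℝ) (z : Ω → ℂ),
    (∀ w ∈ s, Rep x (δ w) (L w) (z w)) → Rep x (∑ w ∈ s, δ w) (∏ w ∈ s, L w) (∏ w ∈ s, z w))

/-- representations in one number are integer polynomials -/
def T_RP1 : Prop := ∀ (t : ℂ) (δ : ℕ) (L : ℝ) (z : ℂ),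
  Rep (fun _ : Unit => t) δ L z ↔ ∃ R : ℤ[X], R.natDegree ≤ δ ∧
    (∑ i ∈ R.support, |(R.coeff i : ℝ)|) ≤ L ∧ aeval t R = z

/-- regular representation of a finite extension of `ℚ(t)` -/
def T_NRA : Prop := ∀ (t : ℂ) (ι : Type) [Fintype ι] (x : ι → ℂ), (∀ i, AO t (x i)) →
  ∃ (N : ℕ) (b : Fin N → ℂ) (j0 : Fin N) (D : ℤ[X]) (B : ι → Matrix (Fin N) (Fin N) ℤ[X]),
    b j0 ≠ 0 ∧ aeval t D ≠ 0 ∧
    (∀ i j, aeval t D * x i * b j = ∑ k, aeval t (B i j k) * b k) ∧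
    ∀ z ∈ IntermediateField.adjoin ℚ (insert t (Set.range x)), z ≠ 0 →
      ∀ A : Matrix (Fin N) (Fin N) ℤ[X], (∀ j, z * b j = ∑ k, aeval t (A j k) * b k) →
        aeval t A.det ≠ 0

/-- the matrix of `D(t) ^ δ z` -/
def T_NRB : Prop := ∀ (t : ℂ) (ι : Type) [Fintype ι] (x : ι → ℂ) (N : ℕ) (b : Fin N → ℂ)
  (D : ℤ[X]) (B : ι → Matrix (Fin N) (Fin N) ℤ[X]),
  (∀ i j, aeval t D * x i * b j = ∑ k, aeval t (B i j k) * b k) →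
  ∃ (e : ℕ) (E : ℝ), 1 ≤ E ∧ ∀ (δ : ℕ) (L : ℝ) (z : ℂ), Rep x δ L z →
    ∃ A : Matrix (Fin N) (Fin N) ℤ[X],
      (∀ j, aeval t D ^ δ * z * b j = ∑ k, aeval t (A j k) * b k) ∧
      (∀ j k, (A j k).natDegree ≤ e * δ ∧
        (∑ i ∈ (A j k).support, |((A j k).coeff i : ℝ)|) ≤ L * E ^ δ)

/-- from a representation to a polynomial in `t` -/
def T_NRM : Prop := ∀ (t : ℂ) (ι : Type) [Fintype ι] (x : ι → ℂ), (∀ i, AO t (x i)) →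
  ∃ (k : ℕ) (C : ℝ), 1 ≤ C ∧ ∀ (δ : ℕ) (L : ℝ) (z : ℂ), 1 ≤ L → z ≠ 0 → Rep x δ L z →
    ∃ R : ℤ[X], aeval t R ≠ 0 ∧ (R.natDegree : ℝ) ≤ C * (δ + 1) ∧
      (∀ i, |(R.coeff i : ℝ)| ≤ L ^ k * Real.exp (C * (δ + 1))) ∧
      ‖aeval t R‖ ≤ ‖z‖ * (L ^ k * Real.exp (C * (δ + 1)))

/-! ### Part V: values -/

/-- values of the derivatives of the auxiliary polynomial -/
def T_VAL : Prop := ∀ (r l c T0 T1 J : ℕ) (t : ℂ) (X : Matrix (Fin l) (Fin r) ℂ)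
  (Y : Matrix (Fin r) (Fin c) ℂ) (p : Un r l T0 T1 J → ℤ) (s : Fin c → ℤ) (L : List (Fin r)),
  MvPolynomial.eval (pt kap (gam X Y s)) (L.foldr (fun i f => dv kap (om X i) f) (aux t p)) =
    vl t X Y p (fun i => L.count i) s

/-- the exponential as a product -/
def T_VLP : Prop := ∀ (r l c T0 T1 J : ℕ) (t : ℂ) (X : Matrix (Fin l) (Fin r) ℂ)
  (Y : Matrix (Fin r) (Fin c) ℂ) (p : Un r l T0 T1 J → ℤ) (τ : Fin r → ℕ) (s : Fin c → ℤ),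
  vl t X Y p τ s = ∑ w : Un r l T0 T1 J, ((p w : ℂ) * t ^ (w.2.2 : ℕ)) *
    ∏ i, (der (w.1 i) (th X w.2.1 i) (τ i) (∑ j, Y i j * (s j : ℂ)) *
      Complex.exp (th X w.2.1 i * ∑ j, Y i j * (s j : ℂ)))

/-- the auxiliary polynomial is not zero -/
def T_NZ : Prop := ∀ (r l T0 T1 J : ℕ) (t : ℂ) (p : Un r l T0 T1 J → ℤ), Transcendental ℚ t →
  p ≠ 0 → aux t p ≠ 0 ∧ aux t p ∈ box (TT T0 T1)

/-! ### Part S: analysis -/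

/-- Taylor coefficients -/
def T_TCB : Prop := ∀ (μ κ : ℕ) (θ : ℂ) (R : ℝ), 0 ≤ R →
  ‖tc μ θ κ‖ * R ^ κ ≤ R ^ μ * Real.exp (R * ‖θ‖)

/-- Taylor expansion of the derivative -/
def T_TAY : Prop := ∀ (μ τ : ℕ) (θ y : ℂ), Tendsto (fun K : ℕ => ∑ κ ∈ Finset.range K,
  tc μ θ κ * (κ.descFactorial τ : ℂ) * y ^ (κ - τ)) atTop
  (𝓝 (der μ θ τ y * Complex.exp (θ * y)))

/-- values are small if the Taylor coefficients are small -/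
def T_SML : Prop := ∀ (r : ℕ) (Ω : Type) [Fintype Ω] (d : Ω → ℂ) (μ : Ω → Fin r → ℕ)
  (θ : Ω → Fin r → ℂ) (τ : Fin r → ℕ) (y : Fin r → ℂ) (R ε Y : ℝ) (V : ℕ), 1 ≤ R → 0 ≤ ε →
  (∀ i, ‖y i‖ ≤ R) →
  (∀ κ : Fin r → ℕ, (∀ i, κ i < V) →
    ‖∑ w, d w * ∏ i, tc (μ w i) (θ w i) (κ i)‖ * (4 * R) ^ (∑ i, κ i) ≤ ε) →
  (∑ w, ‖d w‖ * ∏ i, ((4 * R) ^ (μ w i) * Real.exp (4 * R * ‖θ w i‖))) ≤ Y →
  ‖∑ w, d w * ∏ i, (der (μ w i) (θ w i) (τ i) (y i) * Complex.exp (θ w i * y i))‖ ≤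
    (∏ i, ((τ i).factorial : ℝ)) * (2 ^ r * (ε + r * (1 / 2) ^ V * Y))

/-- the auxiliary polynomial with small values -/
def T_AUX : Prop := ∀ (t : ℂ) (r l c : ℕ) (X : Matrix (Fin l) (Fin r) ℂ)
  (Y : Matrix (Fin r) (Fin c) ℂ) (a b m M : ℕ), 1 ≤ a → 1 ≤ b → (a + b) * r + 1 ≤ a * l →
  m = r + 2 → M = (a + b) * m →
  ∃ h0 : ℕ, ∀ h : ℕ, h0 ≤ h → ∃ p : Un r l (h ^ M) (h ^ (a * m)) (h ^ M) → ℤ, p ≠ 0 ∧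
    (∀ w, |(p w : ℝ)| ≤ Real.exp ((h : ℝ) ^ M)) ∧
    ∀ τ : Fin r → ℕ, (∀ i, τ i ≤ (r + l) * h ^ M) → ∀ s : Fin c → ℤ,
      (∀ j, 0 ≤ s j ∧ s j ≤ (r + l) * (h : ℤ) ^ (b * m)) →
      ‖vl t X Y p τ s‖ ≤ Real.exp (-((h : ℝ) ^ (2 * M + 1)))

/-! ### Part A: arithmetic of the values -/

/-- the values are integer polynomials in fixed numbers -/
def T_ARI : Prop := ∀ (t : ℂ) (r l c : ℕ) (X : Matrix (Fin l) (Fin r) ℂ)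
  (Y : Matrix (Fin r) (Fin c) ℂ) (a b m M : ℕ), M = (a + b) * m →
  ∃ C : ℝ, 1 ≤ C ∧ ∀ h : ℕ, 3 ≤ h → ∀ p : Un r l (h ^ M) (h ^ (a * m)) (h ^ M) → ℤ,
    (∀ w, |(p w : ℝ)| ≤ Real.exp ((h : ℝ) ^ M)) →
    ∀ τ : Fin r → ℕ, (∀ i, τ i ≤ (r + l) * h ^ M) → ∀ s : Fin c → ℤ,
      (∀ j, 0 ≤ s j ∧ s j ≤ (r + l) * (h : ℤ) ^ (b * m)) →
      Rep (xx t X Y) ((1 + r * (1 + r + l) + l * c * (r + l)) * h ^ M)
        (Real.exp (C * (h : ℝ) ^ M * Real.log h)) (vl t X Y p τ s)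

/-! ### Part Z: zero estimate -/

/-- the derivations span a space of dimension `r`, its intersection with a Lie algebra -/
def T_ZR1 : Prop := ∀ (r l T0 T1 : ℕ) (X : Matrix (Fin l) (Fin r) ℂ)
  (L : Submodule ℂ (Fin r ⊕ Fin l → ℂ)) (Θ : Set (Fin r ⊕ Fin l → ℤ)),
  Std kap (TT T0 T1) L Θ →
  finrank ℂ (Submodule.span ℂ (Set.range (om X))) = r ∧
  finrank ℂ (Submodule.span ℂ (Set.range (om X)) ⊓ Lie kap L Θ :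
    Submodule ℂ (Fin r ⊕ Fin l → ℂ)) ≤ finrank ℂ L

/-- the space of characters -/
def T_ZR2 : Prop := ∀ (r l T0 T1 : ℕ) (L : Submodule ℂ (Fin r ⊕ Fin l → ℂ))
  (Θ : Set (Fin r ⊕ Fin l → ℤ)), Std kap (TT T0 T1) L Θ →
  finrank ℚ (Submodule.span ℚ ((fun (u : Fin r ⊕ Fin l → ℤ) (a : Fin l) =>
    (u (Sum.inr a) : ℚ)) '' Θ)) + finrank ℂ (Lie kap (⊥ : Submodule ℂ (Fin r ⊕ Fin l → ℂ)) Θ) = l

/-- a lattice orthogonal to a space -/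
def T_ZR3 : Prop := ∀ (c : ℕ) (G : AddSubgroup (Fin c → ℤ)) (U : Submodule ℚ (Fin c → ℚ)),
  (∀ s ∈ G, ∀ v ∈ U, ∑ j, v j * (s j : ℚ) = 0) → finrank ℤ G + finrank ℚ U ≤ c

/-- if a lattice of maximal rank is sent by `Y` into `L`, then `L` is the whole space -/
def T_ZR4 : Prop := ∀ (r l c : ℕ) (Y : Matrix (Fin r) (Fin c) ℂ)
  (L : Submodule ℂ (Fin r ⊕ Fin l → ℂ)) (G : AddSubgroup (Fin c → ℤ)), Y.rank = r →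
  (∀ g ∈ L, ∀ i, kap i = true → g i = 0) → c ≤ finrank ℤ G →
  (∀ s ∈ G, Sum.elim (fun i => ∑ j, Y i j * (s j : ℂ)) (fun _ => 0) ∈ L) → r ≤ finrank ℂ L

/-- the zero estimate applied to our points -/
def T_ZER : Prop := ∀ (r l c n : ℕ) (X : Matrix (Fin l) (Fin r) ℂ)
  (Y : Matrix (Fin r) (Fin c) ℂ) (w : Fin (n + 1) → ℂ)
  (A : Fin (n + 1) → Matrix (Fin l) (Fin c) ℤ) (a b m M : ℕ), 1 ≤ a → 1 ≤ b → 1 ≤ m →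
  M = (a + b) * m → Y.rank = r → (∀ p j, (X * Y) p j = ∑ k, w k * (A k p j : ℂ)) →
  (∀ q : Fin (n + 1) → ℤ, Complex.exp (∑ k, (q k : ℂ) * w k) = 1 → q = 0) →
  (∀ (V : Submodule ℚ (Fin l → ℚ)) (U : Submodule ℚ (Fin c → ℚ)),
    (∀ k, ∀ y ∈ V, Matrix.vecMul y ((A k).map (Int.cast : ℤ → ℚ)) ∈ U) → V ≠ ⊥ →
    a * finrank ℚ V < b * finrank ℚ U) →
  ∃ h0 : ℕ, ∀ h : ℕ, h0 ≤ h → ∀ P : MvPolynomial (Fin r ⊕ Fin l) ℂ, P ≠ 0 →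
    P ∈ box (TT (h ^ M) (h ^ (a * m))) →
    ∃ (L : List (Fin r)) (s : Fin c → ℤ), L.length ≤ (r + l) * h ^ M ∧
      (∀ j, 0 ≤ s j ∧ s j ≤ (r + l) * (h : ℤ) ^ (b * m)) ∧
      MvPolynomial.eval (pt kap (gam X Y s)) (L.foldr (fun i f => dv kap (om X i) f) P) ≠ 0

/-! ### Part C: the theorem -/

/-- numbers algebraic over `ℚ(t)` -/
def T_AOC : Prop := ∀ t : ℂ, AO t t ∧ (∀ q : ℚ, AO t (q : ℂ)) ∧
  (∀ y z, AO t y → AO t z → AO t (y + z)) ∧ (∀ y z, AO t y → AO t z → AO t (y * z)) ∧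
  (∀ z, AO t z → AO t z⁻¹) ∧ (∀ (z : ℂ) (n : ℕ), 1 ≤ n → AO t (z ^ n) → AO t z) ∧
  (∀ (n : ℕ) (w : Fin n → ℂ) (q : Fin n → ℤ), (∀ k, AO t (Complex.exp (w k))) →
    AO t (Complex.exp (∑ k, w k * (q k : ℂ))))

/-- rank factorization -/
def T_FAC : Prop := ∀ (t : ℂ) (l c : ℕ) (M : Matrix (Fin l) (Fin c) ℂ), (∀ p j, AO t (M p j)) →
  ∃ (X : Matrix (Fin l) (Fin M.rank) ℂ) (Y : Matrix (Fin M.rank) (Fin c) ℂ), X * Y = M ∧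
    (∀ p i, AO t (X p i)) ∧ (∀ i j, AO t (Y i j)) ∧ Y.rank = M.rank

/-- the half rank theorem in transcendence degree one, strict semistable integer pencils -/
def T_CORE : Prop := ∀ (t : ℂ), Transcendental ℚ t → ∀ (n : ℕ) (w : Fin (n + 1) → ℂ),
  (∀ k, AO t (w k)) → (∀ k, AO t (Complex.exp (w k))) →
  (∀ q : Fin (n + 1) → ℤ, Complex.exp (∑ k, (q k : ℂ) * w k) = 1 → q = 0) →
  ∀ (l c a b : ℕ) (A : Fin (n + 1) → Matrix (Fin l) (Fin c) ℤ), 1 ≤ a → 1 ≤ b →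
  (∀ (V : Submodule ℚ (Fin l → ℚ)) (U : Submodule ℚ (Fin c → ℚ)),
    (∀ k, ∀ y ∈ V, Matrix.vecMul y ((A k).map (Int.cast : ℤ → ℚ)) ∈ U) → V ≠ ⊥ →
    a * finrank ℚ V < b * finrank ℚ U) →
  a * l ≤ (a + b) * (Matrix.of fun (p : Fin l) (j : Fin c) => ∑ k, w k * (A k p j : ℂ)).rank

/-- the half rank theorem in transcendence degree one -/
def T_TDH : Prop := ∀ (t : ℂ), Transcendental ℚ t → ∀ (n : ℕ) (w : Fin (n + 1) → ℂ),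
  (∀ k, AO t (w k)) → (∀ k, AO t (Complex.exp (w k))) →
  (∀ q : Fin (n + 1) → ℤ, Complex.exp (∑ k, (q k : ℂ) * w k) = 1 → q = 0) →
  HRS ℚ ℂ Set.univ (fun k : Fin n => w k.succ / w 0)

/-! ### Part F: polynomials at a real transcendental number -/

/-- the number `e` is transcendental -/
def T_TRE : Prop := Transcendental ℚ (Real.exp 1)

/-- algebraic dependence of two real numbers -/
def T_DEP : Prop := ∀ t z : ℝ, Transcendental ℚ t →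
  (¬ AlgebraicIndependent ℚ ![t, z] ↔ AO (t : ℂ) (z : ℂ))

/-- the square root law for families -/
def T_LAW : Prop := ∀ (t β : ℝ), Transcendental ℚ t → β ≠ 0 → AO (t : ℂ) (β : ℂ) →
  ∀ (n D : ℕ) (a : Fin n → ℚ[X]), LinearIndependent ℚ a → (∀ i, (a i).natDegree ≤ D) →
  (∀ i, AO (t : ℂ) ((Real.exp (β * aeval t (a i)) : ℝ) : ℂ)) → n ^ 2 ≤ 4 * D + 1

/-- the square root law for spaces -/
def T_SPC : Prop := ∀ (t β : ℝ), Transcendental ℚ t → β ≠ 0 → AO (t : ℂ) (β : ℂ) → ∀ D : ℕ,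
  ∃ W : Submodule ℚ ℚ[X], (∀ a : ℚ[X], a ∈ W ↔ a.natDegree ≤ D ∧
    ¬ AlgebraicIndependent ℚ ![t, Real.exp (β * aeval t a)]) ∧ FiniteDimensional ℚ W ∧
    (finrank ℚ W) ^ 2 ≤ 4 * D + 1

/-- arbitrary fractions -/
def T_FRA : Prop := ∀ (n D : ℕ) (a b : Fin n → ℚ[X]), (∀ i, (a i).natDegree ≤ D) →
  (∀ i, (b i).natDegree ≤ D) → (∀ i, b i ≠ 0) →
  LinearIndependent ℚ (Fin.cons 1 (fun i => aeval (Real.exp 1) (a i) / aeval (Real.exp 1) (b i)) :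
    Fin (n + 1) → ℝ) →
  (∀ i, ¬ AlgebraicIndependent ℚ ![Real.exp 1,
    Real.exp (aeval (Real.exp 1) (a i) / aeval (Real.exp 1) (b i))]) → n ≤ 4 * D - 2

end Pool.Agent.H18.TD
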