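import Pool.Agent.H18.TD.Targets

/-!
Modules AOC and VLP of td1_modules.
-/

set_option autoImplicit false

open Polynomial Module Filter Topology

namespace Pool.Agent.H18.TD

open Pool.Agent.H72.HR (pt dv box Grp Lie Std kap TT T_ZE T_CHV T_CLB T_PIG T_CAL)

theorem pf_AOC : T_AOC := by
  intro t
  have hmul : ∀ y z, AO t y → AO t z → AO t (y * z) := fun y z hy hz => hy.mul hz
  have hinv : ∀ z, AO t z → AO t z⁻¹ := fun z hz => hz.inv
  have hone : AO t 1 := isAlgebraic_one
  have hpow : ∀ (z : ℂ) (n : ℕ), AO t z → AO t (z ^ n) := fun z n hz => hz.pow n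
  refine ⟨?_, ?_, fun y z hy hz => hy.add hz, hmul, hinv, ?_, ?_⟩
  · have h : t ∈ IntermediateField.adjoin ℚ ({t} : Set ℂ) :=
      IntermediateField.mem_adjoin_simple_self ℚ t
    exact isAlgebraic_algebraMap (⟨t, h⟩ : IntermediateField.adjoin ℚ ({t} : Set ℂ))
  · intro q
    have h := isAlgebraic_algebraMap (A := ℂ) (algebraMap ℚ (IntermediateField.adjoin ℚ ({t} : Set ℂ)) q)
    exact h
  · intro z n hn hz
    exact hz.of_pow (by omega)
  · intro n w q h
    rw [Complex.exp_sum]
    refine Finset.prod_induction _ (AO t) hmul hone fun k _ => ?_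
    have e1 : Complex.exp (w k * (q k : ℂ)) = Complex.exp (w k) ^ (q k) := by
      rw [← Complex.exp_int_mul, mul_comm]
    rw [e1]
    rcases Int.eq_nat_or_neg (q k) with ⟨m, hm | hm⟩
    · rw [hm, zpow_natCast]
      exact hpow _ _ (h k)
    · rw [hm, zpow_neg, zpow_natCast]
      exact hinv _ (hpow _ _ (h k))

theorem pf_VLP : T_VLP := by
  intro r l c T0 T1 J t X Y p τ s
  unfold vl
  refine Finset.sum_congr rfl fun w _ => ?_
  have h : ∑ a, ((w.2.1 a : ℕ) : ℂ) * ∑ j, (X * Y) a j * (s j : ℂ) =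
      ∑ i, th X w.2.1 i * ∑ j, Y i j * (s j : ℂ) := by
    have h1 : ∀ a, ∑ j, (X * Y) a j * (s j : ℂ) = ∑ i, X a i * ∑ j, Y i j * (s j : ℂ) := by
      intro a
      simp only [Matrix.mul_apply, Finset.mul_sum, Finset.sum_mul]
      rw [Finset.sum_comm]
      exact Finset.sum_congr rfl fun i _ => Finset.sum_congr rfl fun j _ => by ring
    simp only [h1, th, Finset.sum_mul]
    rw [Finset.sum_comm]
    refine Finset.sum_congr rfl fun a _ => ?_
    rw [Finset.mul_sum]
    exact Finset.sum_congr rfl fun i _ => by ring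
  rw [h, Complex.exp_sum, Finset.prod_mul_distrib]
  ring

end Pool.Agent.H18.TD
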