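import Pool.Agent.H18.TD.Targets

/-!
Module CORE of td1_modules: the half rank theorem in transcendence degree one for strictly
semistable integer pencils.
-/

set_option autoImplicit false

open Polynomial Module Filter Topology

namespace Pool.Agent.H18.TD

open Pool.Agent.H72.HR (pt dv box Grp Lie Std kap TT T_ZE T_CHV T_CLB T_PIG T_CAL)

theorem core_aux (hAOC : T_AOC) (hAUX : T_AUX) (hNZ : T_NZ) (hVAL : T_VAL) (hARI : T_ARI)
    (hNRM : T_NRM) (hGRW : T_GRW) (hGEL : T_GEL) (hZER : T_ZER) (t : ℂ)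
    (ht : Transcendental ℚ t) (n : ℕ) (w : Fin (n + 1) → ℂ)
    (hew : ∀ k, AO t (Complex.exp (w k)))
    (hind : ∀ q : Fin (n + 1) → ℤ, Complex.exp (∑ k, (q k : ℂ) * w k) = 1 → q = 0)
    (l c a b : ℕ) (A : Fin (n + 1) → Matrix (Fin l) (Fin c) ℤ) (ha : 1 ≤ a) (hb : 1 ≤ b)
    (hss : ∀ (V : Submodule ℚ (Fin l → ℚ)) (U : Submodule ℚ (Fin c → ℚ)),
      (∀ k, ∀ y ∈ V, Matrix.vecMul y ((A k).map (Int.cast : ℤ → ℚ)) ∈ U) → V ≠ ⊥ →
      a * finrank ℚ V < b * finrank ℚ U)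
    (r : ℕ) (X : Matrix (Fin l) (Fin r) ℂ) (Y : Matrix (Fin r) (Fin c) ℂ)
    (hXY : ∀ p j, (X * Y) p j = ∑ k, w k * (A k p j : ℂ)) (hX : ∀ p i, AO t (X p i))
    (hY : ∀ i j, AO t (Y i j)) (hYr : Y.rank = r) (hlt : (a + b) * r + 1 ≤ a * l) : False := by
  have hxx : ∀ i, AO t (xx t X Y i) := by
    obtain ⟨c1, -, -, -, -, -, c7⟩ := hAOC t
    rintro (i | q | q | q)
    · exact c1
    · exact hX _ _
    · exact hY _ _
    · show AO t (Complex.exp ((X * Y) q.1 q.2))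
      rw [hXY]
      exact c7 (n + 1) w (fun k => A k q.1 q.2) hew
  obtain ⟨k, C, hC, hN⟩ := hNRM t _ (xx t X Y) hxx
  obtain ⟨h1, hA⟩ := hAUX t r l c X Y a b (r + 2) ((a + b) * (r + 2)) ha hb hlt rfl rfl
  obtain ⟨C', hC', hR⟩ := hARI t r l c X Y a b (r + 2) ((a + b) * (r + 2)) rfl
  obtain ⟨h2, hZ⟩ := hZER r l c n X Y w A a b (r + 2) ((a + b) * (r + 2)) ha hb (by omega) rfl
    hYr hXY hind hss
  obtain ⟨M, hM⟩ : ∃ M, M = (a + b) * (r + 2) := ⟨_, rfl⟩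
  rw [← hM] at hA hR hZ
  have hM1 : 1 ≤ M := by rw [hM]; nlinarith
  obtain ⟨D0, hD0⟩ : ∃ D0, D0 = 1 + r * (1 + r + l) + l * c * (r + l) := ⟨_, rfl⟩
  rw [← hD0] at hR
  obtain ⟨C2, hC2⟩ : ∃ C2 : ℝ, C2 = k * C' + C * (D0 + 1) := ⟨_, rfl⟩
  have hC21 : 1 ≤ C2 := by
    rw [hC2]
    have e1 : 0 ≤ (k : ℝ) * C' := by positivity
    have e2 : 0 ≤ C * (D0 : ℝ) := by positivity
    nlinarith
  obtain ⟨h3, hh3, hg⟩ := hGRW (2 * C2) 1
  refine hGEL t M (C2 + 1) (max (max h1 h2) h3) hM1 (by linarith) ?_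
  intro h hh
  have hh1 : h1 ≤ h := le_trans (le_max_left _ _) (le_trans (le_max_left _ _) hh)
  have hh2 : h2 ≤ h := le_trans (le_max_right _ _) (le_trans (le_max_left _ _) hh)
  have hh3' : h3 ≤ h := le_trans (le_max_right _ _) hh
  have h3h : 3 ≤ h := le_trans hh3 hh3'
  have hhR : (3 : ℝ) ≤ h := by exact_mod_cast h3h
  have hl : 1 ≤ Real.log h := by
    rw [Real.le_log_iff_exp_le (by linarith)]
    have := Real.exp_one_lt_d9
    linarith
  have hhM : (1 : ℝ) ≤ (h : ℝ) ^ M := one_le_pow₀ (by linarith)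
  obtain ⟨p, hp0, hp1, hp2⟩ := hA h hh1
  obtain ⟨hn1, hn2⟩ := hNZ r l (h ^ M) (h ^ (a * (r + 2))) (h ^ M) t p ht hp0
  obtain ⟨L, s, hL, hs, hne⟩ := hZ h hh2 (aux t p) hn1 hn2
  rw [hVAL] at hne
  have hτ : ∀ i, (fun i => L.count i) i ≤ (r + l) * h ^ M := fun i =>
    le_trans List.count_le_length hL
  have hsmall := hp2 (fun i => L.count i) hτ s hs
  have hrep := hR h h3h p hp1 (fun i => L.count i) hτ s hs
  have hexp0 : 0 ≤ C' * (h : ℝ) ^ M * Real.log h := by positivity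
  obtain ⟨R, hR0, hRd, hRc, hRv⟩ := hN _ _ _ (Real.one_le_exp hexp0) hne hrep
  have hbound : Real.exp (C' * (h : ℝ) ^ M * Real.log h) ^ k *
      Real.exp (C * (((D0 * h ^ M : ℕ) : ℝ) + 1)) ≤ Real.exp (C2 * (h : ℝ) ^ M * Real.log h) := by
    rw [← Real.exp_nat_mul, ← Real.exp_add]
    refine Real.exp_le_exp.2 ?_
    rw [hC2]
    push_cast
    have e1 : C * (D0 * (h : ℝ) ^ M + 1) ≤ C * ((D0 + 1) * (h : ℝ) ^ M) := by
      refine mul_le_mul_of_nonneg_left ?_ (by linarith)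
      linarith
    have e2 : C * ((D0 + 1) * (h : ℝ) ^ M) ≤ C * ((D0 + 1) * (h : ℝ) ^ M) * Real.log h :=
      le_mul_of_one_le_right (by positivity) hl
    calc (k : ℝ) * (C' * (h : ℝ) ^ M * Real.log h) + C * (D0 * (h : ℝ) ^ M + 1)
        ≤ (k : ℝ) * (C' * (h : ℝ) ^ M * Real.log h) +
          C * ((D0 + 1) * (h : ℝ) ^ M) * Real.log h := by linarith
      _ = _ := by ring
  have hmono : Real.exp (C2 * (h : ℝ) ^ M * Real.log h) ≤
      Real.exp ((C2 + 1) * (h : ℝ) ^ M * Real.log h) := by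
    refine Real.exp_le_exp.2 ?_
    have : 0 ≤ (h : ℝ) ^ M * Real.log h := by positivity
    nlinarith
  refine ⟨R, hR0, ?_, fun i => ((hRc i).trans hbound).trans hmono, ?_⟩
  · refine hRd.trans ?_
    push_cast
    have e1 : C * (D0 * (h : ℝ) ^ M + 1) ≤ C * ((D0 + 1) * (h : ℝ) ^ M) := by
      refine mul_le_mul_of_nonneg_left ?_ (by linarith)
      linarith
    have e2 : C * ((D0 + 1) * (h : ℝ) ^ M) ≤ C * ((D0 + 1) * (h : ℝ) ^ M) * Real.log h :=
      le_mul_of_one_le_right (by positivity) hl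
    have e3 : C * ((D0 : ℝ) + 1) ≤ C2 + 1 := by
      rw [hC2]
      have : 0 ≤ (k : ℝ) * C' := by positivity
      linarith
    have e4 : C * ((D0 + 1) * (h : ℝ) ^ M) * Real.log h =
        C * ((D0 : ℝ) + 1) * ((h : ℝ) ^ M * Real.log h) := by ring
    have e5 : C * ((D0 : ℝ) + 1) * ((h : ℝ) ^ M * Real.log h) ≤
        (C2 + 1) * ((h : ℝ) ^ M * Real.log h) :=
      mul_le_mul_of_nonneg_right e3 (by positivity)
    linarith
  · refine hRv.trans ?_
    refine (mul_le_mul hsmall hbound (by positivity) (Real.exp_pos _).le).trans ?_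
    rw [← Real.exp_add]
    refine Real.exp_le_exp.2 ?_
    have e1 := hg h hh3'
    rw [pow_one] at e1
    have e2 : C2 * Real.log h ≤ (h : ℝ) / 2 := by nlinarith
    have e3 : C2 * (h : ℝ) ^ M * Real.log h ≤ (h : ℝ) ^ (M + 1) / 2 := by
      rw [pow_succ]
      nlinarith
    have e4 : (h : ℝ) ^ (M + 1) ≤ (h : ℝ) ^ (2 * M + 1) :=
      pow_le_pow_right₀ (by linarith) (by omega)
    have e5 : (h : ℝ) ^ (2 * M + 1) / (C2 + 1) ≤ (h : ℝ) ^ (2 * M + 1) / 2 := by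
      refine div_le_div_of_nonneg_left (by positivity) (by norm_num) (by linarith)
    linarith

theorem pf_CORE : T_AOC → T_FAC → T_AUX → T_NZ → T_VAL → T_ARI → T_NRM → T_GRW → T_GEL →
    T_ZER → T_CORE := by
  intro hAOC hFAC hAUX hNZ hVAL hARI hNRM hGRW hGEL hZER t ht n w hw hew hind l c a b A ha hb hss
  by_contra hlt
  push Not at hlt
  obtain ⟨M0, hM0⟩ : ∃ M0 : Matrix (Fin l) (Fin c) ℂ,
      M0 = Matrix.of fun (p : Fin l) (j : Fin c) => ∑ k, w k * (A k p j : ℂ) := ⟨_, rfl⟩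
  rw [← hM0] at hlt
  have hMe : ∀ p j, M0 p j = ∑ k, w k * (A k p j : ℂ) := fun p j => by rw [hM0, Matrix.of_apply]
  obtain ⟨c1, c2, c3, c4, c5, c6, c7⟩ := hAOC t
  have hMA : ∀ p j, AO t (M0 p j) := by
    intro p j
    rw [hMe]
    refine Finset.sum_induction _ (AO t) c3 ?_ fun k _ => c4 _ _ (hw k) ?_
    · have := c2 0
      rwa [Rat.cast_zero] at this
    · have := c2 (A k p j : ℚ)
      rwa [Rat.cast_intCast] at this
  obtain ⟨X, Y, hXY, hX, hY, hYr⟩ := hFAC t l c M0 hMA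
  exact core_aux hAOC hAUX hNZ hVAL hARI hNRM hGRW hGEL hZER t ht n w hew hind l c a b A ha hb hss
    M0.rank X Y (fun p j => by rw [hXY]; exact hMe p j) hX hY hYr (by omega)

end Pool.Agent.H18.TD
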