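import Pool.Agent.H18.TD.Targets

/-!
Module GEL of td1_modules: Gelfond's criterion.
-/

set_option autoImplicit false

open Polynomial Module Filter Topology

namespace Pool.Agent.H18.TD

/-- associated integer polynomials have the same size and the same absolute value at a point -/
theorem assoc_eq (P Q : ℤ[X]) (h : Associated P Q) (θ : ℂ) :
    sz P = sz Q ∧ ‖aeval θ P‖ = ‖aeval θ Q‖ := by
  obtain ⟨u, hu⟩ := h
  obtain ⟨r, hr, hu2⟩ := Polynomial.isUnit_iff.1 u.isUnit
  rcases Int.isUnit_iff.1 hr with h1 | h1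
  · have : Q = P := by rw [← hu, ← hu2, h1]; simp
    rw [this]; exact ⟨rfl, rfl⟩
  · have h2 : Q = -P := by rw [← hu, ← hu2, h1]; simp
    rw [h2]
    refine ⟨?_, by rw [map_neg, norm_neg]⟩
    unfold sz
    rw [natDegree_neg, Polynomial.map_neg]
    congr 1
    unfold Polynomial.logMahlerMeasure
    congr 1
    funext x
    simp

theorem pf_GEL : T_GFA → T_GRS → T_GRW → T_GEL := by
  intro hGFA hGRS hGRW θ M C h0 hM hC hR
  obtain ⟨C', hC', hGRS⟩ := hGRS θ
  -- notation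
  obtain ⟨B, hB⟩ : ∃ B : ℕ → ℝ, B = fun h : ℕ => C * (h : ℝ) ^ M * Real.log (h : ℝ) := ⟨_, rfl⟩
  obtain ⟨A, hA⟩ : ∃ A : ℕ → ℝ, A = fun h : ℕ => (h : ℝ) ^ (2 * M + 1) / C := ⟨_, rfl⟩
  have hlog : ∀ h : ℕ, 3 ≤ h → 1 ≤ Real.log h := by
    intro h hh
    have h3 : (3 : ℝ) ≤ h := by exact_mod_cast hh
    rw [Real.le_log_iff_exp_le (by linarith)]
    have := Real.exp_one_lt_d9
    linarith
  have hB1 : ∀ h : ℕ, 3 ≤ h → 1 ≤ B h := by
    intro h hh
    have h3 : (1 : ℝ) ≤ h := by exact_mod_cast (by omega : 1 ≤ h)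
    have h4 : 1 ≤ (h : ℝ) ^ M := one_le_pow₀ h3
    rw [hB]
    simp only
    have := hlog h hh
    nlinarith [mul_le_mul hC h4 (by norm_num) (by linarith : (0 : ℝ) ≤ C)]
  have hA0 : ∀ h : ℕ, 3 ≤ h → 0 < A h := by
    intro h hh
    have h3 : (0 : ℝ) < h := by exact_mod_cast (by omega : 0 < h)
    rw [hA]
    positivity
  -- the factors
  have hQ : ∀ h : ℕ, ∃ Q : ℤ[X], h0 ≤ h → 3 ≤ h → Irreducible Q ∧ 1 ≤ Q.natDegree ∧
      (Q.natDegree : ℝ) ≤ sz Q ∧ sz Q ≤ 3 * B h ∧ (∀ i, |(Q.coeff i : ℝ)| ≤ Real.exp (sz Q)) ∧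
      ‖aeval θ Q‖ ≤ Real.exp (-(A h / (3 * B h) * sz Q)) ∧ aeval θ Q ≠ 0 := by
    intro h
    by_cases hh : h0 ≤ h ∧ 3 ≤ h
    · obtain ⟨R, hR0, hRd, hRc, hRv⟩ := hR h hh.1
      obtain ⟨Q, q1, q2, q3, q4, q5, q6, q7⟩ := hGFA θ R (A h) (B h) hR0 (hB1 h hh.2) (hA0 h hh.2)
        (by rw [hB]; exact hRd) (by rw [hB]; exact hRc) (by rw [hA]; exact hRv)
      refine ⟨Q, fun _ _ => ⟨q1, q3, q4, q5, q6, q7, ?_⟩⟩
      intro hQ0
      obtain ⟨S, hS⟩ := q2
      apply hR0
      rw [hS, map_mul, hQ0, zero_mul]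
    · exact ⟨0, fun h1 h2 => absurd ⟨h1, h2⟩ hh⟩
  choose Q hQ using hQ
  -- growth
  obtain ⟨h1, hh1, hgrow⟩ := hGRW (9 * C' * C ^ 3 * 2 ^ M + 1) 2
  -- consecutive factors are associated
  have hstep : ∀ h : ℕ, max h0 h1 ≤ h → Associated (Q h) (Q (h + 1)) := by
    intro h hh
    have hh0 : h0 ≤ h := le_trans (le_max_left _ _) hh
    have hh1' : h1 ≤ h := le_trans (le_max_right _ _) hh
    have hh3 : 3 ≤ h := le_trans hh1 hh1'
    obtain ⟨a1, a2, a3, a4, a5, a6, a7⟩ := hQ h hh0 hh3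
    obtain ⟨b1, b2, b3, b4, b5, b6, b7⟩ := hQ (h + 1) (by omega) (by omega)
    by_contra hna
    have hs1 : 1 ≤ sz (Q h) := le_trans (by exact_mod_cast a2) a3
    have hs2 : 1 ≤ sz (Q (h + 1)) := le_trans (by exact_mod_cast b2) b3
    have key := hGRS (Q h) (Q (h + 1)) (sz (Q h)) (sz (Q (h + 1)))
      (max (Real.exp (-(A h / (3 * B h) * sz (Q h))))
        (Real.exp (-(A (h + 1) / (3 * B (h + 1)) * sz (Q (h + 1))))))
      a1 b1 hna a2 b2 a3 b3 a5 b5 (a6.trans (le_max_left _ _)) (b6.trans (le_max_right _ _))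
    have hhR : (3 : ℝ) ≤ h := by exact_mod_cast hh3
    have hl := hlog h hh3
    have hg := hgrow h hh1'
    have hlog1 : Real.log ((h + 1 : ℕ) : ℝ) ≤ 1 + Real.log h := by
      push_cast
      have e1 : (h : ℝ) + 1 ≤ Real.exp 1 * h := by
        have := Real.add_one_le_exp (1 : ℝ)
        nlinarith
      calc Real.log ((h : ℝ) + 1) ≤ Real.log (Real.exp 1 * h) :=
            Real.log_le_log (by linarith) e1
        _ = 1 + Real.log h := by
            rw [Real.log_mul (Real.exp_pos 1).ne' (by linarith), Real.log_exp]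
    have hBB : B h * B (h + 1) ≤ C ^ 2 * 2 ^ M * (h : ℝ) ^ (2 * M) * (1 + Real.log h) ^ 2 := by
      rw [hB]
      simp only
      have e1 : ((h + 1 : ℕ) : ℝ) ^ M ≤ 2 ^ M * (h : ℝ) ^ M := by
        rw [← mul_pow]
        refine pow_le_pow_left₀ (by positivity) ?_ M
        push_cast
        linarith
      have e2 : 0 ≤ Real.log ((h + 1 : ℕ) : ℝ) := Real.log_nonneg (by push_cast; linarith)
      calc C * (h : ℝ) ^ M * Real.log h * (C * ((h + 1 : ℕ) : ℝ) ^ M * Real.log ((h + 1 : ℕ) : ℝ))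
          ≤ C * (h : ℝ) ^ M * (1 + Real.log h) * (C * (2 ^ M * (h : ℝ) ^ M) *
            (1 + Real.log h)) := by
            gcongr
            linarith
        _ = _ := by ring
    -- both cases give a bound for h ^ (2 M + 1)
    have hfin : (h : ℝ) ^ (2 * M + 1) / C ≤ 9 * C' * (B h * B (h + 1)) := by
      have hB0 : 0 < B h := lt_of_lt_of_le one_pos (hB1 h hh3)
      have hB0' : 0 < B (h + 1) := lt_of_lt_of_le one_pos (hB1 (h + 1) (by omega))
      rcases le_total (Real.exp (-(A h / (3 * B h) * sz (Q h))))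
        (Real.exp (-(A (h + 1) / (3 * B (h + 1)) * sz (Q (h + 1))))) with hle | hle
      · rw [max_eq_right hle, ← Real.exp_add] at key
        have k1 : 0 ≤ -(A (h + 1) / (3 * B (h + 1)) * sz (Q (h + 1))) +
            C' * (sz (Q h) * sz (Q (h + 1))) := by
          rw [← Real.exp_zero] at key
          exact Real.exp_le_exp.1 key
        have k2 : A (h + 1) / (3 * B (h + 1)) ≤ C' * sz (Q h) := by
          by_contra hc
          push Not at hc
          have := mul_lt_mul_of_pos_right hc (by linarith : 0 < sz (Q (h + 1)))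
          nlinarith
        have k3 : A (h + 1) ≤ C' * sz (Q h) * (3 * B (h + 1)) :=
          (div_le_iff₀ (by positivity)).1 k2
        have k4 : C' * sz (Q h) * (3 * B (h + 1)) ≤ C' * (3 * B h) * (3 * B (h + 1)) := by
          gcongr
        have k5 : (h : ℝ) ^ (2 * M + 1) / C ≤ A (h + 1) := by
          rw [hA]
          simp only
          gcongr
          omega
        calc (h : ℝ) ^ (2 * M + 1) / C ≤ C' * (3 * B h) * (3 * B (h + 1)) :=
              k5.trans (k3.trans k4)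
          _ = _ := by ring
      · rw [max_eq_left hle, ← Real.exp_add] at key
        have k1 : 0 ≤ -(A h / (3 * B h) * sz (Q h)) +
            C' * (sz (Q h) * sz (Q (h + 1))) := by
          rw [← Real.exp_zero] at key
          exact Real.exp_le_exp.1 key
        have k2 : A h / (3 * B h) ≤ C' * sz (Q (h + 1)) := by
          by_contra hc
          push Not at hc
          have := mul_lt_mul_of_pos_right hc (by linarith : 0 < sz (Q h))
          nlinarith
        have k3 : A h ≤ C' * sz (Q (h + 1)) * (3 * B h) :=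
          (div_le_iff₀ (by positivity)).1 k2
        have k4 : C' * sz (Q (h + 1)) * (3 * B h) ≤ C' * (3 * B (h + 1)) * (3 * B h) := by
          gcongr
        have k5 : (h : ℝ) ^ (2 * M + 1) / C = A h := by rw [hA]
        calc (h : ℝ) ^ (2 * M + 1) / C ≤ C' * (3 * B (h + 1)) * (3 * B h) :=
              k5.le.trans (k3.trans k4)
          _ = _ := by ring
    have hpos : 0 < (h : ℝ) ^ (2 * M) := by positivity
    have hL : 0 < (1 + Real.log h) ^ 2 := by
      have : 0 < 1 + Real.log h := by linarith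
      positivity
    have h5 : (h : ℝ) ^ (2 * M + 1) ≤ 9 * C' * C ^ 3 * 2 ^ M * (1 + Real.log h) ^ 2 *
        (h : ℝ) ^ (2 * M) := by
      have := (div_le_iff₀ (by linarith : (0 : ℝ) < C)).1
        (hfin.trans (mul_le_mul_of_nonneg_left hBB (by positivity)))
      calc (h : ℝ) ^ (2 * M + 1) ≤ _ := this
        _ = _ := by ring
    have h6 : (h : ℝ) ≤ 9 * C' * C ^ 3 * 2 ^ M * (1 + Real.log h) ^ 2 := by
      rw [pow_succ, mul_comm ((h : ℝ) ^ (2 * M))] at h5
      exact le_of_mul_le_mul_right h5 hpos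
    nlinarith
  -- all factors are associated to the first one
  obtain ⟨H, hH⟩ : ∃ H : ℕ, H = max h0 h1 := ⟨_, rfl⟩
  have hall : ∀ k : ℕ, Associated (Q H) (Q (H + k)) := by
    intro k
    induction k with
    | zero => exact Associated.refl _
    | succ k ih => exact ih.trans (hstep (H + k) (by omega))
  have hH3 : 3 ≤ H := by rw [hH]; exact le_trans hh1 (le_max_right _ _)
  have hH0 : h0 ≤ H := by rw [hH]; exact le_max_left _ _
  obtain ⟨a1, a2, a3, a4, a5, a6, a7⟩ := hQ H hH0 hH3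
  have hs1 : 1 ≤ sz (Q H) := le_trans (by exact_mod_cast a2) a3
  -- the value is zero
  have hsmall : ∀ h : ℕ, H ≤ h → ‖aeval θ (Q H)‖ ≤ Real.exp (-(A h / (3 * B h))) := by
    intro h hh
    obtain ⟨k, rfl⟩ := Nat.exists_eq_add_of_le hh
    obtain ⟨_, _, _, _, _, b6, _⟩ := hQ (H + k) (by omega) (by omega)
    obtain ⟨e1, e2⟩ := assoc_eq _ _ (hall k) θ
    rw [e2]
    refine b6.trans (Real.exp_le_exp.2 ?_)
    rw [← e1]
    have h7 : 0 ≤ A (H + k) / (3 * B (H + k)) :=
      div_nonneg (hA0 _ (by omega)).le (by have := hB1 (H + k) (by omega); linarith)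
    nlinarith
  have hval : 0 < ‖aeval θ (Q H)‖ := norm_pos_iff.2 a7
  -- A / (3 B) tends to infinity
  obtain ⟨E, hE⟩ : ∃ E : ℝ, Real.exp (-E) < ‖aeval θ (Q H)‖ ∧ 1 ≤ E := by
    refine ⟨max 1 (-Real.log ‖aeval θ (Q H)‖ + 1), ?_, le_max_left _ _⟩
    calc Real.exp (-(max 1 (-Real.log ‖aeval θ (Q H)‖ + 1)))
        ≤ Real.exp (Real.log ‖aeval θ (Q H)‖ - 1) := by
          refine Real.exp_le_exp.2 ?_
          have := le_max_right 1 (-Real.log ‖aeval θ (Q H)‖ + 1)
          linarith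
      _ < Real.exp (Real.log ‖aeval θ (Q H)‖) := Real.exp_lt_exp.2 (by linarith)
      _ = _ := Real.exp_log hval
  obtain ⟨h2, hh2, hgrow2⟩ := hGRW (3 * C ^ 2 * E) 1
  obtain ⟨h, hh⟩ : ∃ h : ℕ, h = max H h2 := ⟨_, rfl⟩
  have hhH : H ≤ h := by rw [hh]; exact le_max_left _ _
  have hhh2 : h2 ≤ h := by rw [hh]; exact le_max_right _ _
  have hh3 : 3 ≤ h := by omega
  have hhR : (3 : ℝ) ≤ h := by exact_mod_cast hh3
  have hl := hlog h hh3
  have g1 := hgrow2 h hhh2
  have g2 := hsmall h hhH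
  have g3 : E ≤ A h / (3 * B h) := by
    rw [le_div_iff₀ (by have := hB1 h hh3; linarith), hA, hB]
    simp only
    rw [le_div_iff₀ (by linarith)]
    have e1 : E * (3 * (C * (h : ℝ) ^ M * Real.log h)) * C =
        (h : ℝ) ^ M * ((3 * C ^ 2 * E) * Real.log h) := by ring
    have e2 : (3 * C ^ 2 * E) * Real.log h ≤ (h : ℝ) := by
      refine le_trans ?_ g1
      rw [pow_one]
      have : 0 ≤ 3 * C ^ 2 * E := by
        have := hE.2
        positivity
      nlinarith
    have e3 : (h : ℝ) ≤ (h : ℝ) ^ (M + 1) := by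
      have : (1 : ℝ) ≤ (h : ℝ) ^ M := one_le_pow₀ (by linarith)
      rw [pow_succ]
      nlinarith
    have e4 : (h : ℝ) ^ (2 * M + 1) = (h : ℝ) ^ M * (h : ℝ) ^ (M + 1) := by
      rw [← pow_add]
      congr 1
      ring
    rw [e1, e4]
    exact mul_le_mul_of_nonneg_left (e2.trans e3) (by positivity)
  have g4 : Real.exp (-(A h / (3 * B h))) ≤ Real.exp (-E) := Real.exp_le_exp.2 (by linarith)
  linarith [hE.1]

end Pool.Agent.H18.TD
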