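import Pool.Agent.H18.TD.Targets

/-!
Module TDH of td1_modules: the half rank theorem in transcendence degree one.
-/

set_option autoImplicit false

open Polynomial Module Filter Topology

namespace Pool.Agent.H18.TD

open Pool.Agent.H72.PER (HRS Into)
open Pool.Agent.H72.SBP (MvK)

/-- common denominator of finitely many rational numbers -/
theorem exists_den {ι : Type} [Finite ι] (f : ι → ℚ) :
    ∃ (N : ℕ) (g : ι → ℤ), 1 ≤ N ∧ ∀ i, (g i : ℚ) = N * f i := by
  classical
  have := Fintype.ofFinite ι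
  refine ⟨∏ i, (f i).den, fun i => (f i).num * ∏ j ∈ Finset.univ.erase i, ((f j).den : ℤ), ?_, ?_⟩
  · exact Finset.prod_pos fun i _ => (f i).pos
  · intro i
    rw [← Finset.mul_prod_erase Finset.univ (fun j => (f j).den) (Finset.mem_univ i)]
    push_cast
    have h := Rat.mul_den_eq_num (f i)
    calc ((f i).num : ℚ) * ∏ j ∈ Finset.univ.erase i, ((f j).den : ℚ)
        = (f i * (f i).den) * ∏ j ∈ Finset.univ.erase i, ((f j).den : ℚ) := by rw [h]
      _ = _ := by ring

theorem pf_TDH : T_CORE → T_TDH := by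
  intro hCORE t ht n w hw hew hind l c A hss
  by_cases hl : l = 0
  · subst hl; simp
  by_cases hc : c = 0
  · subst hc; simp
  have hl1 : 1 ≤ l := Nat.one_le_iff_ne_zero.2 hl
  have hc1 : 1 ≤ c := Nat.one_le_iff_ne_zero.2 hc
  have hw0 : w 0 ≠ 0 := by
    intro h
    have := hind (Pi.single 0 1) (by
      rw [Finset.sum_eq_single 0]
      · rw [h, mul_zero, Complex.exp_zero]
      · intro k _ hk
        rw [Pi.single_eq_of_ne hk, Int.cast_zero, zero_mul]
      · intro h; exact absurd (Finset.mem_univ _) h)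
    have h2 := congrFun this 0
    rw [Pi.single_eq_same] at h2
    exact one_ne_zero h2
  obtain ⟨N, g, hN, hg⟩ := exists_den (fun q : Fin (n + 1) × Fin l × Fin c => A q.1 q.2.1 q.2.2)
  have hNQ : (N : ℚ) ≠ 0 := by positivity
  have hNC : (N : ℂ) ≠ 0 := by exact_mod_cast (by omega : N ≠ 0)
  obtain ⟨A', hA'⟩ : ∃ A' : Fin (n + 1) → Matrix (Fin l) (Fin c) ℤ,
      A' = fun k p j => g (k, p, j) := ⟨_, rfl⟩
  have hA'Q : ∀ k, (A' k).map (Int.cast : ℤ → ℚ) = (N : ℚ) • A k := by
    intro k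
    ext p j
    rw [Matrix.map_apply, Matrix.smul_apply, smul_eq_mul, hA']
    exact hg (k, p, j)
  have hA'C : ∀ k p j, (A' k p j : ℂ) = N * ((A k p j : ℚ) : ℂ) := by
    intro k p j
    have h1 := hg (k, p, j)
    have h2 : ((g (k, p, j) : ℚ) : ℂ) = ((N * A k p j : ℚ) : ℂ) := by rw [h1]
    rw [hA']
    push_cast at h2
    exact h2
  have hcore := hCORE t ht n w hw hew hind l c (c * (l + 1) - 1) (l * (l + 1)) A'
    (by
      have : 2 ≤ c * (l + 1) := by nlinarith
      omega) (by nlinarith) (by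
      intro V U hVU hV
      have h1 := hss V U (by
        intro k _ y hy
        have h2 := hVU k y hy
        rw [hA'Q k, Matrix.vecMul_smul] at h2
        exact (U.smul_mem_iff hNQ).1 h2)
      have h3 : 0 < finrank ℚ V := by
        rw [Nat.pos_iff_ne_zero]
        intro h0
        exact hV (Submodule.finrank_eq_zero.1 h0)
      obtain ⟨d, hd⟩ : ∃ d, d = finrank ℚ V := ⟨_, rfl⟩
      obtain ⟨e, he⟩ : ∃ e, e = finrank ℚ U := ⟨_, rfl⟩
      rw [← hd, ← he] at h1
      rw [← hd] at h3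
      rw [← hd, ← he]
      obtain ⟨b, hb⟩ : ∃ b, c * (l + 1) = b + 1 :=
        ⟨c * (l + 1) - 1, by have : 1 ≤ c * (l + 1) := by nlinarith
                             omega⟩
      rw [hb, Nat.add_sub_cancel]
      have h5 : (l + 1) * (c * d) ≤ (l + 1) * (l * e) := Nat.mul_le_mul_left _ h1
      nlinarith)
  have hrank : (Matrix.of fun (p : Fin l) (j : Fin c) => ∑ k, w k * (A' k p j : ℂ)).rank =
      (MvK (fun k : Fin n => w k.succ / w 0) A).rank := by
    have h1 : (Matrix.of fun (p : Fin l) (j : Fin c) => ∑ k, w k * (A' k p j : ℂ)) =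
        ((N : ℂ) * w 0) • (MvK (fun k : Fin n => w k.succ / w 0) A) := by
      ext p j
      rw [Matrix.of_apply, Matrix.smul_apply, smul_eq_mul, Fin.sum_univ_succ]
      simp only [MvK, hA'C, eq_ratCast]
      rw [mul_add, Finset.mul_sum]
      congr 1
      · ring
      · refine Finset.sum_congr rfl fun k _ => ?_
        field_simp
    rw [h1]
    exact Matrix.rank_smul_of_mem_nonZeroDivisors _
      (mem_nonZeroDivisors_of_ne_zero (mul_ne_zero hNC hw0))
  rw [hrank] at hcore
  obtain ⟨ρ, hρ⟩ : ∃ ρ, ρ = (MvK (fun k : Fin n => w k.succ / w 0) A).rank := ⟨_, rfl⟩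
  rw [← hρ] at hcore ⊢
  obtain ⟨b, hb⟩ : ∃ b, c * (l + 1) = b + 1 :=
    ⟨c * (l + 1) - 1, by have : 1 ≤ c * (l + 1) := by nlinarith
                         omega⟩
  rw [hb, Nat.add_sub_cancel] at hcore
  by_contra hlt
  push Not at hlt
  have h7 : (l + 1) * (ρ * (l + c) + 1) ≤ (l + 1) * (l * c) := Nat.mul_le_mul_left _ hlt
  nlinarith

end Pool.Agent.H18.TD
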