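import Pool.Agent.H1.TD.RP1
import Pool.Agent.H13.TD1.ARI
import Pool.Agent.H18.TD.AOC
import Pool.Agent.H18.TD.CORE
import Pool.Agent.H18.TD.GEL
import Pool.Agent.H18.TD.TDH
import Pool.Agent.H30.TD.FAC
import Pool.Agent.H30.TD.NRA
import Pool.Agent.H30.TD.TRE
import Pool.Agent.H33.TD.FRA
import Pool.Agent.H33.TD.SPC
import Pool.Agent.H34.TD.ZR2
import Pool.Agent.H34.TD.ZR4
import Pool.Agent.H35.TD1.VAL
import Pool.Agent.H36.TD1.GRS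
import Pool.Agent.H37.TD.NZ
import Pool.Agent.H37.TD.REP
import Pool.Agent.H37.TD.TCB
import Pool.Agent.H46.TD.DEP
import Pool.Agent.H46.TD.NRM
import Pool.Agent.H51.TD.ZR1
import Pool.Agent.H64.TD1.AUXF
import Pool.Agent.H64.TD1.SML
import Pool.Agent.H69.TD.ZR3
import Pool.Agent.H73.TD.ZER
import Pool.Agent.H74.TD1.LAW
import Pool.Agent.H74.TD1.NRB
import Pool.Agent.H74.TD1.TAY
import Pool.Agent.H86.TDO.GRW
import Pool.Agent.H98.TD1.GFA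
import Pool.Agent.H98.TD1.SZB
import Pool.Agent.H35.HR.ZE
import Pool.Agent.H35.HR.CLB
import Pool.Agent.H90.HR.CHV
import Pool.Agent.H46.HR.PIG
import Pool.Agent.H72.HRA.All

/-!
Assembly of the board td1_modules (MP_58ae59_nt).
-/

set_option autoImplicit false

namespace Pool.Agent.H18.TD

open Pool.Agent.H72.HR (T_ZE T_CHV T_CLB T_PIG)

theorem aZE : T_ZE := Pool.Agent.H35.HR.zeT Pool.Agent.H72.HRA.slcAll
theorem aCLB : T_CLB := Pool.Agent.H35.HR.clb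
theorem aCHV : T_CHV := Pool.Agent.H90.HR.chv
theorem aPIG : T_PIG := Pool.Agent.H46.HR.pig_target

theorem aSZB : T_SZB := Pool.Agent.H98.TD1.pf_SZB
theorem aGFA : T_GFA := Pool.Agent.H98.TD1.pf_GFA aSZB
theorem aGRS : T_GRS := Pool.Agent.H36.TD1.pf_GRS
theorem aGRW : T_GRW := Pool.Agent.H86.TDO.pf_GRW
theorem aGEL : T_GEL := Pool.Agent.H18.TD.pf_GEL aGFA aGRS aGRW
theorem aREP : T_REP := Pool.Agent.H37.TD.pf_REP
theorem aRP1 : T_RP1 := Pool.Agent.H1.TD.pf_RP1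
theorem aNRA : T_NRA := Pool.Agent.H30.TD.pf_NRA
theorem aNRB : T_NRB := Pool.Agent.H74.TD1.pf_NRB
theorem aNRM : T_NRM := Pool.Agent.H46.TD.pf_NRM aREP aRP1 aNRA aNRB
theorem aVAL : T_VAL := Pool.Agent.H35.TD1.pf_VAL
theorem aVLP : T_VLP := Pool.Agent.H18.TD.pf_VLP
theorem aNZ : T_NZ := Pool.Agent.H37.TD.pf_NZ
theorem aTCB : T_TCB := Pool.Agent.H37.TD.pf_TCB
theorem aTAY : T_TAY := Pool.Agent.H74.TD1.pf_TAY
theorem aSML : T_SML := Pool.Agent.H64.TD1.pf_SML aTCB aTAY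
theorem aAUX : T_AUX := Pool.Agent.H64.TD1.pf_AUX aPIG aVLP aTCB aSML aGRW
theorem aARI : T_ARI := Pool.Agent.H13.TD1.pf_ARI aREP
theorem aZR1 : T_ZR1 := Pool.Agent.H18.TD.pf_ZR1
theorem aZR2 : T_ZR2 := Pool.Agent.H34.TD.pf_ZR2
theorem aZR3 : T_ZR3 := Pool.Agent.H69.TD.pf_ZR3
theorem aZR4 : T_ZR4 := Pool.Agent.H34.TD.pf_ZR4
theorem aZER : T_ZER := Pool.Agent.H73.TD.pf_ZER aZE aCHV aCLB aZR1 aZR2 aZR3 aZR4
theorem aAOC : T_AOC := Pool.Agent.H18.TD.pf_AOC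
theorem aFAC : T_FAC := Pool.Agent.H30.TD.pf_FAC
theorem aCORE : T_CORE := Pool.Agent.H18.TD.pf_CORE aAOC aFAC aAUX aNZ aVAL aARI aNRM aGRW aGEL aZER
theorem aTDH : T_TDH := Pool.Agent.H18.TD.pf_TDH aCORE
theorem aTRE : T_TRE := Pool.Agent.H30.TD.pf_TRE
theorem aDEP : T_DEP := Pool.Agent.H46.TD.pf_DEP
theorem aLAW : T_LAW := Pool.Agent.H74.TD1.pf_LAW aAOC aTDH
theorem aSPC : T_SPC := Pool.Agent.H33.TD.pf_SPC aAOC aDEP aLAW
theorem aFRA : T_FRA := Pool.Agent.H33.TD.pf_FRA aTRE aAOC aDEP aLAW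

end Pool.Agent.H18.TD
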