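import Pool.Agent.H72.HR.Targets

/-!
Definitions for the board td1_modules (MP_58ae59_nt): half rank theorem in transcendence degree
one.
-/

set_option autoImplicit false

open Polynomial

namespace Pool.Agent.H18.TD

noncomputable section

/-- `z` is algebraic over the field `ℚ(t)` -/
def AO (t z : ℂ) : Prop := IsAlgebraic (IntermediateField.adjoin ℚ ({t} : Set ℂ)) z

/-- size of an integer polynomial: degree plus logarithm of the Mahler measure -/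
def sz (Q : ℤ[X]) : ℝ := Q.natDegree + (Q.map (Int.castRingHom ℂ)).logMahlerMeasure

/-- `z` is the value at `x` of an integer polynomial of total degree at most `δ` and length
(sum of the absolute values of the coefficients) at most `L` -/
def Rep {ι : Type} (x : ι → ℂ) (δ : ℕ) (L : ℝ) (z : ℂ) : Prop :=
  ∃ Φ : MvPolynomial ι ℤ, Φ.totalDegree ≤ δ ∧ (∑ m ∈ Φ.support, |((MvPolynomial.coeff m Φ : ℤ) : ℝ)|) ≤ L ∧
    MvPolynomial.aeval x Φ = z

section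
variable {r l c : ℕ}

/-- the derivations -/
def om (X : Matrix (Fin l) (Fin r) ℂ) (i : Fin r) : Fin r ⊕ Fin l → ℂ :=
  Sum.elim (Pi.single i 1) (fun a => X a i)

/-- the points -/
def gam (X : Matrix (Fin l) (Fin r) ℂ) (Y : Matrix (Fin r) (Fin c) ℂ) (s : Fin c → ℤ) :
    Fin r ⊕ Fin l → ℂ :=
  Sum.elim (fun i => ∑ j, Y i j * (s j : ℂ)) (fun a => ∑ j, (X * Y) a j * (s j : ℂ))

/-- indices of the unknowns: exponents of the additive and multiplicative variables and of `t` -/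
abbrev Un (r l T0 T1 J : ℕ) : Type := (Fin r → Fin T0) × (Fin l → Fin T1) × Fin J

/-- the auxiliary polynomial -/
def aux {T0 T1 J : ℕ} (t : ℂ) (p : Un r l T0 T1 J → ℤ) : MvPolynomial (Fin r ⊕ Fin l) ℂ :=
  ∑ w : Un r l T0 T1 J, MvPolynomial.C ((p w : ℂ) * t ^ (w.2.2 : ℕ)) *
    ((∏ i : Fin r, MvPolynomial.X (Sum.inl i) ^ (w.1 i : ℕ)) *
      ∏ a : Fin l, MvPolynomial.X (Sum.inr a) ^ (w.2.1 a : ℕ))

/-- the frequencies -/
def th {T1 : ℕ} (X : Matrix (Fin l) (Fin r) ℂ) (ν : Fin l → Fin T1) (i : Fin r) : ℂ :=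
  ∑ a, ((ν a : ℕ) : ℂ) * X a i

/-- `z ↦ (d/dz)^τ (z ^ μ exp (θ z))` at `y`, divided by `exp (θ y)` -/
def der (μ : ℕ) (θ : ℂ) (τ : ℕ) (y : ℂ) : ℂ :=
  ∑ κ ∈ Finset.range (τ + 1), (τ.choose κ : ℂ) * (μ.descFactorial κ : ℂ) * y ^ (μ - κ) *
    θ ^ (τ - κ)

/-- coefficient of `z ^ κ` in `z ^ μ exp (θ z)` -/
def tc (μ : ℕ) (θ : ℂ) (κ : ℕ) : ℂ :=
  if μ ≤ κ then θ ^ (κ - μ) / ((κ - μ).factorial : ℂ) else 0

/-- values of the derivatives of the auxiliary function -/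
def vl {T0 T1 J : ℕ} (t : ℂ) (X : Matrix (Fin l) (Fin r) ℂ) (Y : Matrix (Fin r) (Fin c) ℂ)
    (p : Un r l T0 T1 J → ℤ) (τ : Fin r → ℕ) (s : Fin c → ℤ) : ℂ :=
  ∑ w : Un r l T0 T1 J, (p w : ℂ) * t ^ (w.2.2 : ℕ) *
    Complex.exp (∑ a, ((w.2.1 a : ℕ) : ℂ) * ∑ j, (X * Y) a j * (s j : ℂ)) *
    ∏ i, der (w.1 i) (th X w.2.1 i) (τ i) (∑ j, Y i j * (s j : ℂ))

/-- the numbers `t`, the entries of `X` and `Y`, the exponentials of the entries of `X Y` -/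
def xx (t : ℂ) (X : Matrix (Fin l) (Fin r) ℂ) (Y : Matrix (Fin r) (Fin c) ℂ) :
    Unit ⊕ (Fin l × Fin r) ⊕ (Fin r × Fin c) ⊕ (Fin l × Fin c) → ℂ :=
  Sum.elim (fun _ => t) (Sum.elim (fun q => X q.1 q.2)
    (Sum.elim (fun q => Y q.1 q.2) (fun q => Complex.exp ((X * Y) q.1 q.2))))

end

end

end Pool.Agent.H18.TD
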